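import Pool.Agent.H629.TA.Stm

set_option autoImplicit false

/-! Project TA (helper629): moments of the counts. -/

open Finset

namespace Pool.Agent.H387.TA.CT

open Pool.Agent.H629.TA

/-- indicator -/
noncomputable def ind (a n : ℕ) : ℝ := if n = a then 1 else 0

theorem cnt_eq {m : ℕ} (j : Fin m → ℕ) (a : ℕ) : (cnt j a : ℝ) = ∑ l, ind a (j l) := by
  unfold cnt ind
  rw [card_filter]
  push_cast
  rfl

theorem draw_sum {ι : Type*} (t : Finset ι) (m : ℕ) (s : Finset ℕ) (p : ℕ → ℝ)
    (f : ι → (Fin m → ℕ) → ℝ) :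
    draw m s p (fun j => ∑ i ∈ t, f i j) = ∑ i ∈ t, draw m s p (f i) := by
  unfold draw
  simp only [mul_sum]
  exact sum_comm

theorem draw_prod (m : ℕ) (s : Finset ℕ) (p : ℕ → ℝ) (g : Fin m → ℕ → ℝ) :
    draw m s p (fun j => ∏ l, g l (j l)) = ∏ l, ∑ a ∈ s, p a * g l a := by
  rw [prod_univ_sum]
  unfold draw
  refine sum_congr rfl fun j _ => ?_
  rw [prod_mul_distrib]

theorem sum_ind (s : Finset ℕ) (p : ℕ → ℝ) (a : ℕ) (ha : a ∈ s) :
    ∑ c ∈ s, p c * ind a c = p a := by
  unfold ind
  simp only [mul_ite, mul_one, mul_zero]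
  rw [sum_ite_eq' s a p, if_pos ha]

section main

variable (hMG : S_MG) (m : ℕ) (s : Finset ℕ) (p : ℕ → ℝ) (hp : ∑ a ∈ s, p a = 1)

include hMG hp

theorem one (a : ℕ) (ha : a ∈ s) (l : Fin m) :
    draw m s p (fun j => ind a (j l)) = p a := by
  have h1 := hMG m 1 s p (fun _ => l) (fun x y _ => Subsingleton.elim x y) hp
    (fun j => ∏ i : Fin 1, ind a (j i))
  rw [draw_prod 1 s p (fun _ => ind a)] at h1
  simp only [Fin.prod_univ_one] at h1
  rw [h1, sum_ind s p a ha]

theorem two (a b : ℕ) (ha : a ∈ s) (hb : b ∈ s) (l l' : Fin m) (hl : l ≠ l') :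
    draw m s p (fun j => ind a (j l) * ind b (j l')) = p a * p b := by
  have hinj : Function.Injective (![l, l'] : Fin 2 → Fin m) := by
    intro x y hxy
    fin_cases x <;> fin_cases y
    · rfl
    · exact absurd hxy hl
    · exact absurd hxy.symm hl
    · rfl
  have h1 := hMG m 2 s p (![l, l'] : Fin 2 → Fin m) hinj hp
    (fun j => ∏ i : Fin 2, (![ind a, ind b] : Fin 2 → ℕ → ℝ) i (j i))
  rw [draw_prod 2 s p (![ind a, ind b] : Fin 2 → ℕ → ℝ)] at h1
  simp only [Fin.prod_univ_two, Matrix.cons_val_zero, Matrix.cons_val_one] at h1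
  rw [h1, sum_ind s p a ha, sum_ind s p b hb]

theorem diag (a b : ℕ) (ha : a ∈ s) (l : Fin m) :
    draw m s p (fun j => ind a (j l) * ind b (j l)) = if a = b then p a else 0 := by
  split_ifs with h
  · subst h
    have h1 : (fun j : Fin m → ℕ => ind a (j l) * ind a (j l)) = fun j => ind a (j l) := by
      funext j
      unfold ind
      split_ifs <;> norm_num
    rw [h1]
    exact one hMG m s p hp a ha l
  · have h1 : (fun j : Fin m → ℕ => ind a (j l) * ind b (j l)) = fun _ => 0 := by
      funext j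
      unfold ind
      by_cases h2 : j l = a
      · rw [if_neg (fun h3 => h (h2.symm.trans h3)), mul_zero]
      · rw [if_neg h2, zero_mul]
    rw [h1]
    unfold draw
    simp

theorem pair (a b : ℕ) (ha : a ∈ s) (hb : b ∈ s) :
    draw m s p (fun j => (cnt j a : ℝ) * (cnt j b : ℝ)) =
      m * (if a = b then p a else 0) + m * (m - 1) * (p a * p b) := by
  have h1 : (fun j : Fin m → ℕ => (cnt j a : ℝ) * (cnt j b : ℝ)) =
      fun j => ∑ l, ∑ l', ind a (j l) * ind b (j l') := by
    funext j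
    rw [cnt_eq, cnt_eq, sum_mul_sum]
  have h2 : ∀ l l' : Fin m, draw m s p (fun j => ind a (j l) * ind b (j l')) =
      p a * p b + if l = l' then (if a = b then p a else 0) - p a * p b else 0 := by
    intro l l'
    by_cases hl : l = l'
    · subst hl
      rw [diag hMG m s p hp a b ha l, if_pos rfl]
      ring
    · rw [two hMG m s p hp a b ha hb l l' hl, if_neg hl, add_zero]
  rw [h1, draw_sum univ m s p (fun l j => ∑ l', ind a (j l) * ind b (j l'))]
  have h3 : ∀ l : Fin m, draw m s p (fun j => ∑ l', ind a (j l) * ind b (j l')) =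
      m * (p a * p b) + ((if a = b then p a else 0) - p a * p b) := by
    intro l
    rw [draw_sum univ m s p (fun l' j => ind a (j l) * ind b (j l')),
      sum_congr rfl fun l' _ => h2 l l', sum_add_distrib, sum_const, card_univ, Fintype.card_fin,
      nsmul_eq_mul, sum_ite_eq, if_pos (mem_univ _)]
  rw [sum_congr rfl fun l _ => h3 l, sum_const, card_univ, Fintype.card_fin, nsmul_eq_mul]
  ring

end main

theorem t_CT : S_DR → S_MG → S_CT := by
  intro hDR hMG m s p hp
  have h1 : ∀ a ∈ s, draw m s p (fun j => (cnt j a : ℝ)) = m * p a := by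
    intro a ha
    have h2 : (fun j : Fin m → ℕ => (cnt j a : ℝ)) = fun j => ∑ l, ind a (j l) := by
      funext j
      exact cnt_eq j a
    rw [h2, draw_sum univ m s p (fun l j => ind a (j l)),
      sum_congr rfl fun l _ => one hMG m s p hp a ha l, sum_const, card_univ, Fintype.card_fin,
      nsmul_eq_mul]
  have h2 : ∀ a ∈ s, draw m s p (fun j => (cnt j a : ℝ) ^ 2) =
      m * p a + m * (m - 1) * p a ^ 2 := by
    intro a ha
    have h3 := pair hMG m s p hp a a ha ha
    rw [if_pos rfl] at h3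
    have h4 : (fun j : Fin m → ℕ => (cnt j a : ℝ) ^ 2) =
        fun j => (cnt j a : ℝ) * (cnt j a : ℝ) := by
      funext j
      rw [sq]
    rw [h4, h3, sq]
  refine ⟨h1, ?_, h2, ?_⟩
  · intro a ha b hb hab
    rw [pair hMG m s p hp a b ha hb, if_neg hab, mul_zero, zero_add]
  · intro a ha
    obtain ⟨_, hadd, hmul, _⟩ := hDR m s p
    have h3 : (fun j : Fin m → ℕ => (cnt j a : ℝ) * ((cnt j a : ℝ) - 1)) =
        fun j => (cnt j a : ℝ) ^ 2 + (-1) * (cnt j a : ℝ) := by
      funext j
      ring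
    rw [h3, hadd (fun j => (cnt j a : ℝ) ^ 2) (fun j => (-1) * (cnt j a : ℝ)),
      hmul (-1) (fun j => (cnt j a : ℝ)), h1 a ha, h2 a ha]
    ring

end Pool.Agent.H387.TA.CT
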